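import Pool.Agent.H83.AR.Targets3
import Pool.Agent.H4.BR.Kzi
import Pool.Agent.H33.AR.RB

/-!
Module RAm: the Fourier transform of `GM`.
-/

set_option autoImplicit false

namespace Pool.Agent.H65.BR

open MeasureTheory Set FourierTransform
open Pool.Agent.H83.LS Pool.Agent.H93.AR Pool.Agent.H83.AR
open Pool.Agent.H4.BR
open Pool.Agent.H54.LS (Sp sg nu mp_jo jo_inner pr_jo jo_last integral_mp)
open scoped ENNReal NNReal

/-- the data in polar coordinates of the second block, times the weight -/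
noncomputable def Fq (a b : ℕ) (f : EE (a + b) → ℂ) (y : EE a) (q : ℝ × Sp b) : ℂ :=
  if 0 < q.1 then ((q.1 ^ (((b : ℝ) - 1) / 2) : ℝ) : ℂ) * f (jm a b y (q.1 • (q.2 : EE b))) else 0

lemma Fq_pos {a b : ℕ} {f : EE (a + b) → ℂ} {y : EE a} {q : ℝ × Sp b} (h : 0 < q.1) :
    Fq a b f y q = ((q.1 ^ (((b : ℝ) - 1) / 2) : ℝ) : ℂ) *
      f (jm a b y (q.1 • (q.2 : EE b))) := if_pos h

lemma Fq_neg {a b : ℕ} {f : EE (a + b) → ℂ} {y : EE a} {q : ℝ × Sp b} (h : ¬ 0 < q.1) :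
    Fq a b f y q = 0 := if_neg h

/-- what is needed of the splitting -/
structure JMs (a b : ℕ) : Prop where
  p1 : ∀ (y : EE a) (z : EE b), p1 a b (jm a b y z) = y
  p2 : ∀ (y : EE a) (z : EE b), p2 a b (jm a b y z) = z
  inn : ∀ (y y' : EE a) (z z' : EE b),
    inner ℝ (jm a b y z) (jm a b y' z') = inner ℝ y y' + inner ℝ z z'
  nrm : ∀ (y : EE a) (z : EE b), ‖z‖ ≤ ‖jm a b y z‖
  cont : Continuous fun q : EE a × EE b => jm a b q.1 q.2
  cyl : 1 ≤ b → MeasurePreserving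
    (fun q : Sp b × (Ioi (0 : ℝ) × EE a) => jm a b q.2.2 ((q.2.1 : ℝ) • (q.1 : EE b)))
      ((sg b).prod ((nu b).prod volume)) volume

lemma jms (hJM : T_JM) (a b : ℕ) : JMs a b := by
  obtain ⟨h1, -, h3, h4, h5, -, -, -, -, -, h11, -⟩ := hJM a b
  refine ⟨fun y z => (h1 y z).1, fun y z => (h1 y z).2, fun y y' z z' => ?_, fun y z => ?_, h5, h11⟩
  · rw [h3, (h1 y z).1, (h1 y z).2, (h1 y' z').1, (h1 y' z').2]
  · have h := h4 (jm a b y z)
    rw [(h1 y z).1, (h1 y z).2] at h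
    nlinarith [norm_nonneg y, norm_nonneg z, norm_nonneg (jm a b y z)]

lemma Fq_meas {a b : ℕ} (hJ : JMs a b) {f : EE (a + b) → ℂ} (hf : Measurable f) (y : EE a) :
    Measurable (Fq a b f y) := by
  unfold Fq
  refine Measurable.ite (measurableSet_lt measurable_const measurable_fst) ?_ measurable_const
  apply Measurable.mul
  · exact Complex.measurable_ofReal.comp (measurable_fst.pow_const _)
  · have h1 : Measurable fun q : ℝ × Sp b => (y, q.1 • (q.2 : EE b)) :=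
      measurable_const.prodMk (measurable_fst.smul (measurable_subtype_coe.comp measurable_snd))
    exact hf.comp (hJ.cont.measurable.comp h1)

lemma norm_ray {b : ℕ} {ρ : ℝ} (h : 0 ≤ ρ) (w : Sp b) : ‖ρ • (w : EE b)‖ = ρ := by
  rw [norm_smul, norm_Sp, mul_one, Real.norm_of_nonneg h]

lemma Fq_supp {a b : ℕ} (hJ : JMs a b) {f : EE (a + b) → ℂ} {L Lam R : ℝ}
    (hs : ∀ x, f x ≠ 0 → L ^ 2 ≤ Lam * ‖p2 a b x‖) (hR : ∀ x, R < ‖x‖ → f x = 0) (y : EE a)
    (q : ℝ × Sp b) (hq : Fq a b f y q ≠ 0) : L ^ 2 ≤ Lam * q.1 ∧ 0 < q.1 ∧ q.1 ≤ R := by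
  have h0 : 0 < q.1 := by
    by_contra h
    exact hq (Fq_neg h)
  rw [Fq_pos h0] at hq
  have h1 : f (jm a b y (q.1 • (q.2 : EE b))) ≠ 0 := right_ne_zero_of_mul hq
  refine ⟨?_, h0, ?_⟩
  · have h2 := hs _ h1
    rwa [hJ.p2, norm_ray h0.le] at h2
  · by_contra h
    push Not at h
    apply h1
    apply hR
    have h2 := hJ.nrm y (q.1 • (q.2 : EE b))
    rw [norm_ray h0.le] at h2
    exact h.trans_le h2

lemma Fq_bound {a b : ℕ} (hJ : JMs a b) {f : EE (a + b) → ℂ} {A : ℝ}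
    (hA : ∀ x, ‖p2 a b x‖ ^ (((b : ℝ) - 1) / 2) * ‖f x‖ ≤ A) (hA0 : 0 ≤ A) (y : EE a)
    (q : ℝ × Sp b) : ‖Fq a b f y q‖ ≤ A := by
  by_cases h0 : 0 < q.1
  · rw [Fq_pos h0, norm_mul, Complex.norm_real, Real.norm_of_nonneg (Real.rpow_nonneg h0.le _)]
    have h2 := hA (jm a b y (q.1 • (q.2 : EE b)))
    rwa [hJ.p2, norm_ray h0.le] at h2
  · rw [Fq_neg h0, norm_zero]
    exact hA0

lemma Fq_int {a b : ℕ} (hJ : JMs a b) {f : EE (a + b) → ℂ} (hf : Measurable f) {L Lam R A : ℝ}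
    (hs : ∀ x, f x ≠ 0 → L ^ 2 ≤ Lam * ‖p2 a b x‖) (hR : ∀ x, R < ‖x‖ → f x = 0)
    (hA : ∀ x, ‖p2 a b x‖ ^ (((b : ℝ) - 1) / 2) * ‖f x‖ ≤ A) (hA0 : 0 ≤ A) (y : EE a) :
    Integrable (Fq a b f y) ((volume : Measure ℝ).prod (sg b)) := by
  have h0 : Integrable ((Icc 0 R).indicator fun _ => A) (volume : Measure ℝ) := by
    rw [integrable_indicator_iff measurableSet_Icc]
    exact integrableOn_const isCompact_Icc.measure_lt_top.ne
  have h1 : Integrable (fun q : ℝ × Sp b => (Icc 0 R).indicator (fun _ => A) q.1 * 1)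
      ((volume : Measure ℝ).prod (sg b)) :=
    h0.mul_prod (g := fun _ : Sp b => (1 : ℝ)) (integrable_const _)
  refine h1.mono' (Fq_meas hJ hf y).aestronglyMeasurable (ae_of_all _ fun q => ?_)
  rw [mul_one]
  by_cases hq : Fq a b f y q = 0
  · rw [hq, norm_zero]
    exact indicator_nonneg (fun _ _ => hA0) _
  · obtain ⟨-, h2, h3⟩ := Fq_supp hJ hs hR y q hq
    rw [indicator_of_mem (show q.1 ∈ Icc 0 R from ⟨h2.le, h3⟩)]
    exact Fq_bound hJ hA hA0 y q

lemma GM_eq {a b : ℕ} {L Lam : ℝ} (hLam : 0 < Lam) (f : EE (a + b) → ℂ) (v : Sp b) (y : EE a)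
    (x : ℝ) : GM a b L Lam f v (jo y x) =
      ∫ ρ : ℝ, ∫ w : Sp b, kzc b L chi Lam (v : EE b) (w : EE b) x ρ * Fq a b f y (ρ, w)
        ∂(sg b) := by
  unfold GM
  rw [← integral_indicator measurableSet_Ioi, pr_jo, jo_last]
  congr 1
  ext ρ
  by_cases hρ : ρ ∈ Ioi (0 : ℝ)
  · have hρ' : 0 < ρ := hρ
    rw [indicator_of_mem hρ]
    refine integral_congr_ae (ae_of_all _ fun w => ?_)
    simp only
    rw [kzc_eq b L chi H27.hchi Lam hLam v w x ρ hρ'.le, Fq_pos (q := (ρ, w)) hρ']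
  · rw [indicator_of_notMem hρ]
    have h : ∀ w : Sp b, kzc b L chi Lam (v : EE b) (w : EE b) x ρ * Fq a b f y (ρ, w) = 0 := by
      intro w
      rw [Fq_neg (q := (ρ, w)) hρ, mul_zero]
    simp [h]

/-- the slices -/
lemma slice_m {a b : ℕ} (hb : 2 ≤ b) (hJ : JMs a b) {f : EE (a + b) → ℂ} (hf : Measurable f)
    {L Lam R A M C : ℝ} (hs : ∀ x, f x ≠ 0 → L ^ 2 ≤ Lam * ‖p2 a b x‖)
    (hR : ∀ x, R < ‖x‖ → f x = 0)
    (hA : ∀ x, ‖p2 a b x‖ ^ (((b : ℝ) - 1) / 2) * ‖f x‖ ≤ A) (hA0 : 0 ≤ A) (hLam : 0 < Lam)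
    (hZ : ZK b L M) (hD : Dec b L chi Lam C) (hC : 0 ≤ C) (v : Sp b) (y : EE a) (s : ℝ) :
    ∫ x : ℝ, e (-(x * s)) * GM a b L Lam f v (jo y x) =
      ∫ ρ : ℝ, ∫ w : Sp b, hz b L chi Lam (v : EE b) (w : EE b) ρ s * Fq a b f y (ρ, w)
        ∂(sg b) := by
  obtain ⟨C', hC', hk⟩ := kzc_dom hD hC hLam R
  have hFi := Fq_int hJ hf hs hR hA hA0 y
  have hkm : Measurable fun q : ℝ × (ℝ × Sp b) => kzc b L chi Lam (v : EE b) (q.2.2 : EE b) q.1 q.2.1 := by
    have h1 : Measurable fun q : ℝ × (ℝ × Sp b) => (((q.2.2 : EE b), q.2.1), q.1) :=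
      ((measurable_subtype_coe.comp (measurable_snd.comp measurable_snd)).prodMk
        (measurable_fst.comp measurable_snd)).prodMk measurable_fst
    exact (kzc_meas hZ chi H27.continuous_chi Lam (v : EE b)).comp h1
  have hbd : ∀ (x : ℝ) (q : ℝ × Sp b), ‖kzc b L chi Lam (v : EE b) (q.2 : EE b) x q.1 *
      Fq a b f y q‖ ≤ C' * ((1 + |x|) ^ 2)⁻¹ * ‖Fq a b f y q‖ := by
    intro x q
    rw [norm_mul]
    by_cases hq : Fq a b f y q = 0
    · rw [hq, norm_zero, mul_zero, mul_zero]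
    · obtain ⟨h1, h2, h3⟩ := Fq_supp hJ hs hR y q hq
      exact mul_le_mul_of_nonneg_right (hk x q.1 v q.2 h1 h2.le h3) (norm_nonneg _)
  have hint : Integrable (fun q : ℝ × (ℝ × Sp b) => e (-(q.1 * s)) *
      (kzc b L chi Lam (v : EE b) (q.2.2 : EE b) q.1 q.2.1 * Fq a b f y q.2))
      (volume.prod (volume.prod (sg b))) := by
    have h1 : Integrable (fun q : ℝ × (ℝ × Sp b) => (C' * ((1 + |q.1|) ^ 2)⁻¹) *
        ‖Fq a b f y q.2‖) (volume.prod (volume.prod (sg b))) :=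
      (H27.integrable_w2.const_mul C').mul_prod hFi.norm
    refine h1.mono' ?_ (ae_of_all _ fun q => ?_)
    · apply Measurable.aestronglyMeasurable
      apply Measurable.mul
      · exact measurable_e.comp (by fun_prop)
      · exact hkm.mul ((Fq_meas hJ hf y).comp measurable_snd)
    · rw [norm_mul, norm_e, one_mul]
      exact hbd q.1 q.2
  have hint1 : ∀ x : ℝ, Integrable (fun q : ℝ × Sp b =>
      kzc b L chi Lam (v : EE b) (q.2 : EE b) x q.1 * Fq a b f y q) (volume.prod (sg b)) := by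
    intro x
    refine (hFi.norm.const_mul (C' * ((1 + |x|) ^ 2)⁻¹)).mono' ?_ (ae_of_all _ fun q => hbd x q)
    have h1 : Measurable fun q : ℝ × Sp b => kzc b L chi Lam (v : EE b) (q.2 : EE b) x q.1 :=
      hkm.comp (measurable_const.prodMk measurable_id)
    exact (h1.mul (Fq_meas hJ hf y)).aestronglyMeasurable
  have hq1 : ∀ q : ℝ × Sp b, ∫ x : ℝ, e (-(x * s)) *
      (kzc b L chi Lam (v : EE b) (q.2 : EE b) x q.1 * Fq a b f y q) =
      hz b L chi Lam (v : EE b) (q.2 : EE b) q.1 s * Fq a b f y q := by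
    intro q
    by_cases hq : Fq a b f y q = 0
    · simp [hq]
    · obtain ⟨h1, h2, -⟩ := Fq_supp hJ hs hR y q hq
      rw [← kzc_inv hb hZ H27.continuous_chi H27.hchi hD hC hLam v q.2 q.1 s h1 h2.le,
        ← integral_mul_const]
      congr 1
      ext x
      ring
  have hint2 : Integrable (fun q : ℝ × Sp b =>
      hz b L chi Lam (v : EE b) (q.2 : EE b) q.1 s * Fq a b f y q) (volume.prod (sg b)) := by
    have h1 := hint.integral_prod_right
    refine h1.congr (ae_of_all _ fun q => ?_)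
    exact hq1 q
  calc
    _ = ∫ x : ℝ, ∫ q : ℝ × Sp b, e (-(x * s)) *
          (kzc b L chi Lam (v : EE b) (q.2 : EE b) x q.1 * Fq a b f y q) ∂(volume.prod (sg b)) := by
        congr 1
        ext x
        rw [GM_eq hLam, integral_const_mul, integral_prod _ (hint1 x)]
    _ = ∫ q : ℝ × Sp b, ∫ x : ℝ, e (-(x * s)) *
          (kzc b L chi Lam (v : EE b) (q.2 : EE b) x q.1 * Fq a b f y q) ∂volume
            ∂(volume.prod (sg b)) := integral_integral_swap hint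
    _ = ∫ q : ℝ × Sp b, hz b L chi Lam (v : EE b) (q.2 : EE b) q.1 s * Fq a b f y q
          ∂(volume.prod (sg b)) := by
        congr 1
        ext q
        exact hq1 q
    _ = _ := integral_prod _ hint2

/-- integrals over the radial measure -/
lemma int_nu (n : ℕ) (K : ℝ → ℂ) : ∫ ρ : Ioi (0 : ℝ), K ρ ∂(nu n) =
    ∫ ρ in Ioi (0 : ℝ), ((ρ ^ (n - 1) : ℝ) : ℂ) * K ρ := by
  rw [(Pool.Agent.H33.AR.mp_nu n).integral_comp (MeasurableEmbedding.subtype_coe measurableSet_Ioi) K,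
    integral_withDensity_eq_integral_toReal_smul₀ (by fun_prop)
      (ae_of_all _ fun _ => ENNReal.ofReal_lt_top)]
  refine setIntegral_congr_fun measurableSet_Ioi fun ρ hρ => ?_
  have hρ' : 0 < ρ := hρ
  rw [ENNReal.toReal_ofReal (by positivity), Complex.real_smul]

/-- the angular average in polar coordinates -/
lemma A2_cyl {a b : ℕ} (hJ : JMs a b) (L : ℝ) (f : EE (a + b) → ℂ) (y : EE a) (u : Sp b) {ρ : ℝ}
    (hρ : 0 < ρ) : A2 a b L f (jm a b y (ρ • (u : EE b))) =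
      ∫ w : Sp b, ((zk b L (u : EE b) (w : EE b) : ℝ) : ℂ) * f (jm a b y (ρ • (w : EE b)))
        ∂(sg b) := by
  unfold A2
  rw [hJ.p1, hJ.p2, norm_ray hρ.le, smul_smul, inv_mul_cancel₀ hρ.ne', one_smul]

/-- the Fourier transform of the average -/
lemma ft_A2 {a b : ℕ} (hb : 1 ≤ b) (hJ : JMs a b) {f : EE (a + b) → ℂ} (hf : Measurable f)
    {B L M : ℝ} (hB : ∀ x, ‖f x‖ ≤ B) (hZ : ZK b L M) (hM : 0 ≤ M)
    (hAi : Integrable (A2 a b L f)) (v : Sp b) (y : EE a) (s : ℝ) :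
    𝓕 (A2 a b L f) (jm a b y (s • (v : EE b))) =
      ∫ y' : EE a, e (-(inner ℝ y' y)) * ∫ ρ in Ioi (0 : ℝ), ((ρ ^ (b - 1) : ℝ) : ℂ) *
        ∫ w : Sp b, ZL b L (ρ * s) (v : EE b) (w : EE b) * f (jm a b y' (ρ • (w : EE b)))
          ∂(sg b) := by
  have hB0 : 0 ≤ B := (norm_nonneg _).trans (hB 0)
  obtain ⟨H, hH⟩ : ∃ H : Sp b × (Ioi (0 : ℝ) × EE a) → ℂ, H = fun q =>
      e (-(inner ℝ q.2.2 y + (q.2.1 : ℝ) * s * inner ℝ (v : EE b) (q.1 : EE b))) *
        ∫ w : Sp b, ((zk b L (q.1 : EE b) (w : EE b) : ℝ) : ℂ) *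
          f (jm a b q.2.2 ((q.2.1 : ℝ) • (w : EE b))) ∂(sg b) := ⟨_, rfl⟩
  have hi0 : Integrable (fun x => e (-(inner ℝ x (jm a b y (s • (v : EE b))))) * A2 a b L f x) := by
    apply hAi.bdd_mul (c := 1)
    · exact (measurable_e.comp (by fun_prop)).aestronglyMeasurable
    · exact ae_of_all _ fun ζ => (norm_e _).le
  have hHe : ∀ q : Sp b × (Ioi (0 : ℝ) × EE a),
      e (-(inner ℝ (jm a b q.2.2 ((q.2.1 : ℝ) • (q.1 : EE b))) (jm a b y (s • (v : EE b))))) *
        A2 a b L f (jm a b q.2.2 ((q.2.1 : ℝ) • (q.1 : EE b))) = H q := by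
    intro q
    rw [hH]
    simp only
    rw [A2_cyl hJ L f q.2.2 q.1 q.2.1.2, hJ.inn, inner_smul_left, inner_smul_right,
      real_inner_comm (q.1 : EE b) (v : EE b)]
    congr 3
    simp only [conj_trivial]
    ring
  have hHi : Integrable H ((sg b).prod ((nu b).prod volume)) := by
    have h1 := (hJ.cyl hb).integrable_comp_of_integrable hi0
    refine h1.congr (ae_of_all _ fun q => ?_)
    exact hHe q
  obtain ⟨Φ, hΦ⟩ : ∃ Φ : ℝ → EE a → ℂ, Φ = fun ρ y' => e (-(inner ℝ y' y)) *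
      ∫ w : Sp b, ZL b L (ρ * s) (v : EE b) (w : EE b) * f (jm a b y' (ρ • (w : EE b)))
        ∂(sg b) := ⟨_, rfl⟩
  have hin : ∀ q : Ioi (0 : ℝ) × EE a, ∫ u : Sp b, H (u, q) ∂(sg b) = Φ (q.1 : ℝ) q.2 := by
    intro q
    rw [hH, hΦ]
    simp only
    have hint : Integrable (fun p : Sp b × Sp b =>
        e (-((q.1 : ℝ) * s * inner ℝ (v : EE b) (p.1 : EE b))) *
          (((zk b L (p.1 : EE b) (p.2 : EE b) : ℝ) : ℂ) *
            f (jm a b q.2 ((q.1 : ℝ) • (p.2 : EE b))))) ((sg b).prod (sg b)) := by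
      have h1 : Measurable fun p : Sp b × Sp b => (p.1 : EE b) :=
        measurable_subtype_coe.comp measurable_fst
      have h2 : Measurable fun p : Sp b × Sp b => (p.2 : EE b) :=
        measurable_subtype_coe.comp measurable_snd
      refine (integrable_const (M * B)).mono' ?_ (ae_of_all _ fun p => ?_)
      · apply Measurable.aestronglyMeasurable
        apply Measurable.mul
        · apply measurable_e.comp
          exact (measurable_const.mul (measurable_const.inner h1)).neg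
        · apply Measurable.mul
          · have h5 := Complex.measurable_ofReal.comp (hZ.meas.comp (h1.prodMk h2))
            exact h5
          · have h3 : Measurable fun p : Sp b × Sp b => (q.2, (q.1 : ℝ) • (p.2 : EE b)) :=
              measurable_const.prodMk (h2.const_smul (q.1 : ℝ))
            exact hf.comp (hJ.cont.measurable.comp h3)
      · rw [norm_mul, norm_e, one_mul, norm_mul, Complex.norm_real,
          Real.norm_of_nonneg (hZ.nonneg _ _)]
        exact mul_le_mul (hZ.le _ _ (norm_Sp _) (norm_Sp _)) (hB _) (norm_nonneg _) hM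
    calc
      _ = ∫ u : Sp b, e (-(inner ℝ q.2 y)) * ∫ w : Sp b,
            e (-((q.1 : ℝ) * s * inner ℝ (v : EE b) (u : EE b))) *
            (((zk b L (u : EE b) (w : EE b) : ℝ) : ℂ) *
              f (jm a b q.2 ((q.1 : ℝ) • (w : EE b)))) ∂(sg b) ∂(sg b) := by
          refine integral_congr_ae (ae_of_all _ fun u => ?_)
          simp only
          rw [integral_const_mul, neg_add, e_add]
          ring
      _ = e (-(inner ℝ q.2 y)) * ∫ w : Sp b, ∫ u : Sp b,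
            e (-((q.1 : ℝ) * s * inner ℝ (v : EE b) (u : EE b))) *
            (((zk b L (u : EE b) (w : EE b) : ℝ) : ℂ) *
              f (jm a b q.2 ((q.1 : ℝ) • (w : EE b)))) ∂(sg b) ∂(sg b) := by
          rw [integral_const_mul, integral_integral_swap hint]
      _ = _ := by
          congr 1
          refine integral_congr_ae (ae_of_all _ fun w => ?_)
          simp only
          unfold ZL
          rw [← integral_mul_const]
          refine integral_congr_ae (ae_of_all _ fun u => ?_)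
          simp only
          ring
  have hΦi : Integrable (fun q : Ioi (0 : ℝ) × EE a => Φ (q.1 : ℝ) q.2) ((nu b).prod volume) := by
    have h1 := hHi.integral_prod_right
    refine h1.congr (ae_of_all _ fun q => ?_)
    exact hin q
  calc
    _ = ∫ q : Sp b × (Ioi (0 : ℝ) × EE a), H q ∂((sg b).prod ((nu b).prod volume)) := by
        rw [Pool.Agent.H14.LS.ff_eq, ← integral_mp (hJ.cyl hb) hi0.1]
        exact integral_congr_ae (ae_of_all _ fun q => hHe q)
    _ = ∫ q : Ioi (0 : ℝ) × EE a, Φ (q.1 : ℝ) q.2 ∂((nu b).prod volume) := by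
        rw [integral_prod_symm _ hHi]
        exact integral_congr_ae (ae_of_all _ fun q => hin q)
    _ = ∫ y' : EE a, ∫ ρ : Ioi (0 : ℝ), Φ (ρ : ℝ) y' ∂(nu b) := integral_prod_symm _ hΦi
    _ = _ := by
        refine integral_congr_ae (ae_of_all _ fun y' => ?_)
        simp only
        rw [int_nu b (fun ρ => Φ ρ y'), ← integral_const_mul]
        refine setIntegral_congr_fun measurableSet_Ioi fun ρ _ => ?_
        rw [hΦ]
        simp only
        ring

/-- `GM` is integrable -/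
lemma gm_int (hGMB : T_GMB) (hJM : T_JM) {a b : ℕ} (ha : 1 ≤ a) (hb : 2 ≤ b) {L Lam B R : ℝ}
    {f : EE (a + b) → ℂ} (hL : 1 ≤ L) (hLam : 0 < Lam) (hf : BCd B f)
    (hR : ∀ x, R < ‖x‖ → f x = 0) (hs : ∀ x, f x ≠ 0 → L ^ 2 ≤ Lam * ‖p2 a b x‖) :
    ∃ A : ℝ, 0 ≤ A ∧ (∀ x, ‖p2 a b x‖ ^ (((b : ℝ) - 1) / 2) * ‖f x‖ ≤ A) ∧
      ∀ v : Sp b, Measurable (GM a b L Lam f v) ∧ Integrable (GM a b L Lam f v) := by
  have hB0 : 0 ≤ B := (norm_nonneg _).trans (hf.2.1 0)
  have hβ : 0 ≤ ((b : ℝ) - 1) / 2 := by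
    have : (2 : ℝ) ≤ b := by exact_mod_cast hb
    linarith
  obtain ⟨A, hA⟩ : ∃ A : ℝ, A = |R| ^ (((b : ℝ) - 1) / 2) * B := ⟨_, rfl⟩
  have hA0 : 0 ≤ A := by rw [hA]; positivity
  have hA1 : ∀ x, ‖p2 a b x‖ ^ (((b : ℝ) - 1) / 2) * ‖f x‖ ≤ A := by
    intro x
    by_cases hx : f x = 0
    · rw [hx, norm_zero, mul_zero]; exact hA0
    · rw [hA]
      have h1 : ‖p2 a b x‖ ≤ |R| := by
        have h2 : ‖x‖ ≤ R := by
          by_contra h
          push Not at h
          exact hx (hR x h)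
        have h3 := (hJM a b).2.2.2.1 x
        have h4 : ‖p2 a b x‖ ≤ ‖x‖ := by
          nlinarith [norm_nonneg (p1 a b x), norm_nonneg (p2 a b x), norm_nonneg x]
        exact h4.trans (h2.trans (le_abs_self R))
      exact mul_le_mul (Real.rpow_le_rpow (norm_nonneg _) h1 hβ) (hf.2.1 x) (norm_nonneg _)
        (by positivity)
  obtain ⟨C₁, -, hG⟩ := hGMB a b ha hb
  obtain ⟨-, hG1, -⟩ := hG L Lam A B f hL hLam hf hs hA1
  exact ⟨A, hA0, hA1, fun v => ⟨(hG1 v).1, (hG1 v).2.1⟩⟩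

/-- RAm -/
theorem pf_ram (hKW : T_KW) (hGMB : T_GMB) (_hBZ : T_BZ) (hZB : T_ZB) (hAM : T_AM2) (hJM : T_JM) :
    T_RAm := by
  intro a b L Lam B f v y s ha hb hL hLam hf hs
  have hJ := jms hJM a b
  have hb1 : 1 ≤ b := by omega
  obtain ⟨hf1, hf2, R, hR⟩ := hf
  have hf : BCd B f := ⟨hf1, hf2, R, hR⟩
  obtain ⟨A, hA0, hA1, hG⟩ := gm_int hGMB hJM ha hb hL hLam hf hR hs
  obtain ⟨M, hM, hZ⟩ := zk_of hZB b hb1 L hL
  obtain ⟨C, hC, hD, -⟩ := dec_both hKW b hb L Lam hL hLam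
  obtain ⟨hGm, hGi⟩ := hG v
  have hi0 : Integrable (fun X => e (-(inner ℝ X (jo y s))) * GM a b L Lam f v X) := by
    apply hGi.bdd_mul (c := 1)
    · exact (measurable_e.comp (by fun_prop)).aestronglyMeasurable
    · exact ae_of_all _ fun ζ => (norm_e _).le
  have h1 : 𝓕 (GM a b L Lam f v) (jo y s) = ∫ y' : EE a, e (-(inner ℝ y' y)) *
      ∫ ρ : ℝ, ∫ w : Sp b, hz b L chi Lam (v : EE b) (w : EE b) ρ s * Fq a b f y' (ρ, w)
        ∂(sg b) := by
    have h2 : Integrable (fun q : EE a × ℝ => e (-(inner ℝ (jo q.1 q.2) (jo y s))) *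
        GM a b L Lam f v (jo q.1 q.2)) (volume.prod volume) :=
      (mp_jo a).integrable_comp_of_integrable hi0
    rw [Pool.Agent.H14.LS.ff_eq, ← integral_mp (mp_jo a) hi0.1, integral_prod _ h2]
    refine integral_congr_ae (ae_of_all _ fun y' => ?_)
    simp only
    rw [← slice_m hb hJ hf1 hs hR hA1 hA0 hLam hZ hD hC v y' s, ← integral_const_mul]
    congr 1
    ext x
    rw [jo_inner, neg_add, e_add]
    ring
  rw [h1]
  by_cases hs0 : 0 < s
  · rw [if_pos hs0, ft_A2 hb1 hJ hf1 hf2 hZ hM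
      ((hAM a b L (A2 a b L) (by omega) hb1 hL (Or.inr rfl)).2.2.2.1 f hf1
        (Pool.Agent.H14.LS.bcd_int hf)) v y s, ← integral_const_mul]
    refine integral_congr_ae (ae_of_all _ fun y' => ?_)
    simp only
    have h5 : ∫ ρ : ℝ, ∫ w : Sp b, hz b L chi Lam (v : EE b) (w : EE b) ρ s *
        Fq a b f y' (ρ, w) ∂(sg b) =
        ((chi (s / Lam) * s ^ (((b : ℝ) - 1) / 2) : ℝ) : ℂ) * ∫ ρ in Ioi (0 : ℝ),
          ((ρ ^ (b - 1) : ℝ) : ℂ) * ∫ w : Sp b, ZL b L (ρ * s) (v : EE b) (w : EE b) *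
            f (jm a b y' (ρ • (w : EE b))) ∂(sg b) := by
      rw [← integral_indicator measurableSet_Ioi, ← integral_const_mul]
      refine integral_congr_ae (ae_of_all _ fun ρ => ?_)
      simp only
      by_cases hρ : ρ ∈ Ioi (0 : ℝ)
      · have hρ' : 0 < ρ := hρ
        rw [indicator_of_mem hρ, ← integral_const_mul, ← integral_const_mul]
        refine integral_congr_ae (ae_of_all _ fun w => ?_)
        simp only
        rw [hz_pos b L chi Lam v w ρ s hρ'.le hs0.le, Fq_pos (q := (ρ, w)) hρ']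
        have h3 : (ρ ^ (b - 1) : ℝ) = ρ ^ (((b : ℝ) - 1) / 2) * ρ ^ (((b : ℝ) - 1) / 2) := by
          rw [← Real.rpow_add hρ', ← Real.rpow_natCast]
          congr 1
          rw [Nat.cast_sub hb1]
          push_cast
          ring
        rw [h3, Real.mul_rpow hρ'.le hs0.le]
        push_cast
        ring
      · rw [indicator_of_notMem hρ, mul_zero]
        have h : ∀ w : Sp b, hz b L chi Lam (v : EE b) (w : EE b) ρ s *
            Fq a b f y' (ρ, w) = 0 := by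
          intro w
          rw [Fq_neg (q := (ρ, w)) hρ, mul_zero]
        simp [h]
    rw [h5, mul_left_comm]
  · rw [if_neg hs0]
    push Not at hs0
    have h : ∀ (ρ : ℝ) (w : Sp b), hz b L chi Lam (v : EE b) (w : EE b) ρ s = 0 := by
      intro ρ w
      exact hz_neg b L chi H27.hchi Lam hLam v w ρ s hs0
    simp [h]

end Pool.Agent.H65.BR
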