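import Pool.Agent.H65.BR.RAm

/-!
Module ROm: reduction to `ℝ^(a+1)`.
-/

set_option autoImplicit false

namespace Pool.Agent.H65.BR

open MeasureTheory Set FourierTransform
open Pool.Agent.H83.LS Pool.Agent.H93.AR Pool.Agent.H83.AR
open Pool.Agent.H4.BR
open Pool.Agent.H54.LS (Sp sg nu mp_jo jo_inner pr_jo jo_last jo_pr inner_eq integral_mp)
open scoped ENNReal NNReal

lemma mS_integrable (a : ℕ) {lam : ℝ} (hl : 0 < lam) (M t : ℝ) :
    Integrable (mS a lam M t) := by
  unfold mS
  refine (Pool.Agent.H14.LS.mT_int hl t).mul_bdd (c := 1) ?_ (ae_of_all _ fun ξ => ?_)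
  · apply Measurable.aestronglyMeasurable
    apply Complex.measurable_ofReal.comp
    exact H27.continuous_chis.measurable.comp (by fun_prop)
  · rw [Complex.norm_real, Real.norm_eq_abs]
    exact H27.abs_chis_le _

theorem pf_rom (hRA : T_RAm) (hRB : T_RBm) (hKW : T_KW) (hGMB : T_GMB) (_hBZ : T_BZ) (hZB : T_ZB)
    (hJM : T_JM) : T_ROm := by
  intro a b L lam Lam t B r y f w ha hb hL hlam hLam hf hs hr hr2
  rw [hRB a b L lam Lam t B r y f w ha hb hL hlam hLam hf hr]
  have hb1 : 1 ≤ b := by omega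
  obtain ⟨hf1, hf2, R, hR⟩ := hf
  have hf : BCd B f := ⟨hf1, hf2, R, hR⟩
  obtain ⟨A, hA0, hA1, hG⟩ := gm_int hGMB hJM ha hb hL hLam hf hR hs
  obtain ⟨M, hM, hZ⟩ := zk_of hZB b hb1 L hL
  obtain ⟨C, hC, -, hD⟩ := dec_both hKW b hb L Lam hL hLam
  refine integral_congr_ae (ae_of_all _ fun v => ?_)
  simp only
  obtain ⟨hGm, hGi⟩ := hG v
  obtain ⟨c, hc⟩ : ∃ c : EE (a + 1) → ℂ, c = fun ζ => e (inner ℝ y (pr ζ)) *
    (mS a lam Lam t ζ * 𝓕 (GM a b L Lam f v) ζ) := ⟨_, rfl⟩
  have hFfb : ∀ ξ, ‖𝓕 (GM a b L Lam f v) ξ‖ ≤ ∫ X, ‖GM a b L Lam f v X‖ := by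
    intro ξ
    rw [Pool.Agent.H14.LS.ff_eq]
    refine (norm_integral_le_integral_norm _).trans (le_of_eq ?_)
    congr 1; ext y
    rw [norm_mul, norm_e, one_mul]
  have hci : Integrable c := by
    rw [hc]
    have h3 : Integrable (fun ξ => mS a lam Lam t ξ * 𝓕 (GM a b L Lam f v) ξ) :=
      (mS_integrable a hlam Lam t).mul_bdd (c := ∫ X, ‖GM a b L Lam f v X‖)
        (Pool.Agent.H14.LS.fourier_meas' hGi).aestronglyMeasurable (ae_of_all _ hFfb)
    apply h3.bdd_mul (c := 1)
    · have h4 : Continuous fun ζ : EE (a + 1) => inner ℝ y (pr ζ) :=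
        continuous_const.inner Pool.Agent.H54.LS.continuous_pr
      exact (continuous_e.comp h4).aestronglyMeasurable
    · exact ae_of_all _ fun ζ => (norm_e _).le
  have hki := kzc_integrable hZ H27.continuous_chis hD hC hLam w v r hr2 hr.le
  have hki' : Integrable (fun x₁ => (starRingEnd ℂ) (kzc b L chis Lam (w : EE b) (v : EE b) x₁ r)) := by
    refine hki.norm.mono' ?_ (ae_of_all _ fun x => ?_)
    · exact Complex.continuous_conj.comp_aestronglyMeasurable hki.1
    · rw [RCLike.norm_conj]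
  have hint : Integrable (fun q : ℝ × EE (a + 1) => e (q.1 * q.2 (Fin.last a)) *
      ((starRingEnd ℂ) (kzc b L chis Lam (w : EE b) (v : EE b) q.1 r) * c q.2))
      (volume.prod volume) := by
    apply (hki'.mul_prod hci).bdd_mul (c := 1)
    · exact (measurable_e.comp (by fun_prop)).aestronglyMeasurable
    · exact ae_of_all _ fun ζ => (norm_e _).le
  symm
  calc
    _ = ∫ x₁ : ℝ, ∫ ξ : EE (a + 1), e (x₁ * ξ (Fin.last a)) *
          ((starRingEnd ℂ) (kzc b L chis Lam (w : EE b) (v : EE b) x₁ r) * c ξ) := by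
        congr 1
        ext x₁
        rw [kzc_eq b L chis H27.hchis Lam hLam w v x₁ r hr.le]
        unfold MM
        rw [← integral_const_mul]
        congr 1
        ext ξ
        rw [hc]
        simp only
        rw [inner_eq, pr_jo, jo_last, e_add]
        ring
    _ = ∫ ξ : EE (a + 1), ∫ x₁ : ℝ, e (x₁ * ξ (Fin.last a)) *
          ((starRingEnd ℂ) (kzc b L chis Lam (w : EE b) (v : EE b) x₁ r) * c ξ) :=
        integral_integral_swap hint
    _ = ∫ ξ : EE (a + 1), (starRingEnd ℂ) (hz b L chis Lam (w : EE b) (v : EE b) r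
          (ξ (Fin.last a))) * c ξ := by
        congr 1
        ext ξ
        rw [← kzc_inv' hb hZ H27.continuous_chis H27.hchis hD hC hLam w v r (ξ (Fin.last a)) hr2
          hr.le, ← integral_mul_const]
        congr 1
        ext x₁
        ring
    _ = _ := by
        have hms : MeasurableSet {ζ : EE (a + 1) | 0 < ζ (Fin.last a)} :=
          measurableSet_lt measurable_const (by fun_prop)
        rw [← integral_indicator hms]
        congr 1
        ext ξ
        have hRAξ := hRA a b L Lam B f v (pr ξ) (ξ (Fin.last a)) ha hb hL hLam hf hs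
        rw [jo_pr] at hRAξ
        by_cases hξ : 0 < ξ (Fin.last a)
        · rw [indicator_of_mem (show ξ ∈ {ζ : EE (a + 1) | 0 < ζ (Fin.last a)} from hξ)]
          rw [hz_pos b L chis Lam w v r _ hr.le hξ.le, hc]
          simp only
          rw [hRAξ, if_pos hξ]
          unfold mS mT
          have h5 := H27.chis_sq_mul_chi (ξ (Fin.last a) / Lam)
          have h6 : ((chis (ξ (Fin.last a) / Lam) : ℝ) : ℂ) *
              ((chis (ξ (Fin.last a) / Lam) : ℝ) : ℂ) *
              ((chi (ξ (Fin.last a) / Lam) : ℝ) : ℂ) =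
                ((chi (ξ (Fin.last a) / Lam) : ℝ) : ℂ) := by exact_mod_cast h5
          rw [map_mul, Complex.conj_ofReal, e_add]
          push_cast
          linear_combination ((((r * ξ (Fin.last a)) ^ (((b : ℝ) - 1) / 2) : ℝ) : ℂ) *
            (starRingEnd ℂ) (ZL b L (r * ξ (Fin.last a)) (w : EE b) (v : EE b)) *
            e (inner ℝ y (pr ξ)) * e (t * ‖ξ‖) * ((chi (‖ξ‖ / lam) : ℝ) : ℂ) *
            ((ξ (Fin.last a) ^ (((b : ℝ) - 1) / 2) : ℝ) : ℂ) *
            𝓕 (A2 a b L f) (jm a b (pr ξ) (ξ (Fin.last a) • (v : EE b)))) * h6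
        · rw [indicator_of_notMem (show ξ ∉ {ζ : EE (a + 1) | 0 < ζ (Fin.last a)} from hξ)]
          push Not at hξ
          rw [hz_neg b L chis H27.hchis Lam hLam w v r _ hξ]
          simp

end Pool.Agent.H65.BR
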