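import Pool.Agent.H93.AR.Defs

/-!
# ZB: basic properties of the zonal kernel
-/

set_option autoImplicit false

open MeasureTheory Set Filter Topology
open scoped ENNReal

namespace Pool.Agent.H65.BR

open Pool.Agent.H93.AR Pool.Agent.H83.LS Pool.Agent.H54.LS

private lemma zb_cont : Continuous eta0 := by
  unfold eta0
  exact Real.smoothTransition.continuous.comp (continuous_const.sub continuous_id)

private lemma zb_nonneg (s : ℝ) : 0 ≤ eta0 s := Real.smoothTransition.nonneg _

private lemma zb_le (s : ℝ) : eta0 s ≤ 1 := Real.smoothTransition.le_one _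

private lemma zb_zero {s : ℝ} (hs : 2 ≤ s) : eta0 s = 0 :=
  Real.smoothTransition.zero_of_nonpos (by linarith)

private lemma zb_bc (n : ℕ) : 0 ≤ bc n :=
  inv_nonneg.mpr (integral_nonneg fun _ => zb_nonneg _)

private lemma bump_nonneg (n : ℕ) {L : ℝ} (hL : 0 ≤ L) (y : EE n) : 0 ≤ bump n L y :=
  mul_nonneg (mul_nonneg (zb_bc n) (pow_nonneg hL n)) (zb_nonneg _)

private lemma bump_le (n : ℕ) {L : ℝ} (hL : 0 ≤ L) (y : EE n) : bump n L y ≤ bc n * L ^ n := by
  have := mul_le_mul_of_nonneg_left (zb_le (4 * (L * ‖y‖)))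
    (mul_nonneg (zb_bc n) (pow_nonneg hL n))
  rwa [mul_one] at this

private lemma bump_cont (n : ℕ) (L : ℝ) : Continuous (bump n L) :=
  continuous_const.mul (zb_cont.comp (continuous_const.mul (continuous_const.mul continuous_norm)))

private lemma bump_supp (n : ℕ) {L : ℝ} (hL : 1 ≤ L) {y : EE n} (hy : bump n L y ≠ 0) :
    ‖y‖ < 1 / (2 * L) := by
  by_contra h
  rw [not_lt] at h
  apply hy
  have h1 : 2 ≤ 4 * (L * ‖y‖) := by
    have h2 : 1 / (2 * L) * (2 * L) ≤ ‖y‖ * (2 * L) :=
      mul_le_mul_of_nonneg_right h (by linarith)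
    rw [div_mul_cancel₀ _ (by linarith)] at h2
    linarith
  unfold bump
  rw [zb_zero h1, mul_zero]

private lemma bump_norm (n : ℕ) (L : ℝ) {y y' : EE n} (h : ‖y‖ = ‖y'‖) :
    bump n L y = bump n L y' := by
  unfold bump
  rw [h]

private lemma zb_integrand_cont (n : ℕ) (L : ℝ) :
    Continuous (fun p : (EE n × EE n) × ℝ =>
      bump n L (p.2 • p.1.2 - p.1.1) * p.2 ^ (n - 1)) := by
  refine ((bump_cont n L).comp ?_).mul (by fun_prop)
  fun_prop

private lemma zb_near {n : ℕ} {L t : ℝ} (hL : 1 ≤ L) (ht : 0 < t) {u v : EE n} (hu : ‖u‖ = 1)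
    (hv : ‖v‖ = 1) (h : bump n L (t • v - u) ≠ 0) :
    |t - 1| < 1 / (2 * L) ∧ ‖u - v‖ ≤ 1 / L := by
  have h1 := bump_supp n hL h
  have h2 : |t - 1| ≤ ‖t • v - u‖ := by
    have := abs_norm_sub_norm_le (t • v) u
    rwa [norm_smul, hu, hv, mul_one, Real.norm_eq_abs, abs_of_pos ht] at this
  refine ⟨lt_of_le_of_lt h2 h1, ?_⟩
  have h3 : ‖u - v‖ ≤ ‖t • v - u‖ + |t - 1| := by
    have e1 : u - v = -(t • v - u) + (t - 1) • v := by
      rw [sub_smul, one_smul]; abel
    rw [e1]
    refine (norm_add_le _ _).trans ?_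
    rw [norm_neg, norm_smul, hv, mul_one, Real.norm_eq_abs]
  have h4 : 1 / (2 * L) + 1 / (2 * L) = 1 / L := by
    field_simp; norm_num
  linarith

theorem pf_zb : T_ZB := by
  intro n hn
  refine ⟨bc n * (3 / 2) ^ (n - 1), fun L hL => ?_⟩
  have hL0 : (0 : ℝ) < L := by linarith
  have hK : 0 ≤ bc n * L ^ n := mul_nonneg (zb_bc n) (pow_nonneg hL0.le n)
  have hnn : ∀ (u v : EE n) (t : ℝ), 0 < t → 0 ≤ bump n L (t • v - u) * t ^ (n - 1) :=
    fun u v t ht => mul_nonneg (bump_nonneg n hL0.le _) (pow_nonneg ht.le _)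
  refine ⟨?_, ?_, ?_, ?_, ?_, ?_, ?_⟩
  · -- measurability
    have h1 : StronglyMeasurable (Function.uncurry fun (q : EE n × EE n) (t : ℝ) =>
        bump n L (t • q.2 - q.1) * t ^ (n - 1)) :=
      (zb_integrand_cont n L).stronglyMeasurable
    exact (h1.integral_prod_right (ν := volume.restrict (Ioi (0 : ℝ)))).measurable
  · -- continuity
    rintro ⟨u₀, v₀⟩ hv₀
    have hv₀' : v₀ ≠ 0 := hv₀
    have hv₀n : 0 < ‖v₀‖ := norm_pos_iff.mpr hv₀'
    refine ContinuousAt.continuousWithinAt ?_
    set T : ℝ := (‖u₀‖ + 2) / (‖v₀‖ / 2) with hT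
    have hT0 : 0 < T := by positivity
    refine continuousAt_of_dominated (F := fun (q : EE n × EE n) (t : ℝ) =>
        bump n L (t • q.2 - q.1) * t ^ (n - 1))
      (bound := (Iic T).indicator fun _ => bc n * L ^ n * T ^ (n - 1)) ?_ ?_ ?_ ?_
    · refine Eventually.of_forall fun q => ?_
      exact ((zb_integrand_cont n L).comp
        (Continuous.prodMk continuous_const continuous_id :
          Continuous fun t : ℝ => (q, t))).aestronglyMeasurable
    · have hn1 : ∀ᶠ q : EE n × EE n in 𝓝 (u₀, v₀), ‖q.1‖ < ‖u₀‖ + 1 :=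
        (continuous_fst.norm.continuousAt (x := (u₀, v₀))).eventually_lt_const
          (show ‖((u₀, v₀) : EE n × EE n).1‖ < ‖u₀‖ + 1 by simp)
      have hn2 : ∀ᶠ q : EE n × EE n in 𝓝 (u₀, v₀), ‖v₀‖ / 2 < ‖q.2‖ :=
        (continuous_snd.norm.continuousAt (x := (u₀, v₀))).eventually_const_lt
          (show ‖v₀‖ / 2 < ‖((u₀, v₀) : EE n × EE n).2‖ by simpa using hv₀')
      filter_upwards [hn1, hn2] with q hq1 hq2
      refine (ae_restrict_iff' measurableSet_Ioi).mpr (Eventually.of_forall fun t ht => ?_)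
      have ht' : (0 : ℝ) < t := ht
      rw [Real.norm_of_nonneg (hnn _ _ t ht')]
      by_cases hb : bump n L (t • q.2 - q.1) = 0
      · rw [hb, zero_mul]
        exact indicator_nonneg (fun _ _ => mul_nonneg hK (pow_nonneg hT0.le _)) _
      · have h1 := bump_supp n hL hb
        have h2 : 1 / (2 * L) ≤ 1 := by
          rw [div_le_one (by linarith)]; linarith
        have h3 : t * ‖q.2‖ ≤ ‖t • q.2 - q.1‖ + ‖q.1‖ := by
          have := norm_add_le (t • q.2 - q.1) q.1
          rwa [sub_add_cancel, norm_smul, Real.norm_eq_abs, abs_of_pos ht'] at this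
        have h4 : t * (‖v₀‖ / 2) ≤ ‖u₀‖ + 2 := by
          have : t * (‖v₀‖ / 2) ≤ t * ‖q.2‖ := mul_le_mul_of_nonneg_left hq2.le ht'.le
          linarith
        have h5 : t ≤ T := by
          rw [hT, le_div_iff₀ (by positivity)]; exact h4
        rw [indicator_of_mem (show t ∈ Iic T from h5)]
        exact mul_le_mul (bump_le n hL0.le _) (pow_le_pow_left₀ ht'.le h5 _)
          (pow_nonneg ht'.le _) hK
    · rw [integrable_indicator_iff measurableSet_Iic]
      refine integrableOn_const ?_
      rw [Measure.restrict_apply measurableSet_Iic]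
      have : Iic T ∩ Ioi 0 = Ioc 0 T := by
        ext t; simp [and_comm]
      rw [this]
      simp
    · refine Eventually.of_forall fun t => ?_
      exact ((zb_integrand_cont n L).comp
        (Continuous.prodMk continuous_id continuous_const :
          Continuous fun q : EE n × EE n => (q, t))).continuousAt
  · intro u v
    exact setIntegral_nonneg measurableSet_Ioi fun t ht => hnn u v t ht
  · intro u v hu hv
    have hb : bc n * (3 / 2) ^ (n - 1) * L ^ (n - 1) =
        (bc n * L ^ n * (3 / 2) ^ (n - 1)) * (1 / L) := by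
      have : L ^ n = L ^ (n - 1) * L := by
        rw [← pow_succ, Nat.sub_add_cancel hn]
      rw [this]
      field_simp
    rw [hb]
    set a : ℝ := 1 - 1 / (2 * L) with ha
    set b : ℝ := 1 + 1 / (2 * L) with hb'
    have hhalf : 1 / (2 * L) ≤ 1 / 2 := by
      apply div_le_div_of_nonneg_left <;> linarith
    have hposh : 0 < 1 / (2 * L) := by positivity
    have hsub : Icc a b ⊆ Ioi (0 : ℝ) := fun t ht => by
      have := ht.1
      show (0 : ℝ) < t
      linarith
    have hval : ∫ t in Ioi (0 : ℝ), (Icc a b).indicator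
        (fun _ => bc n * L ^ n * (3 / 2) ^ (n - 1)) t =
        bc n * L ^ n * (3 / 2) ^ (n - 1) * (1 / L) := by
      rw [setIntegral_indicator measurableSet_Icc, inter_eq_self_of_subset_right hsub,
        setIntegral_const, Measure.real, Real.volume_Icc, smul_eq_mul, mul_comm,
        ENNReal.toReal_ofReal (by rw [ha, hb']; linarith)]
      congr 1
      rw [ha, hb']
      field_simp
      ring
    unfold zk
    rw [← hval]
    have hindint : Integrable ((Icc a b).indicator
        (fun _ => bc n * L ^ n * (3 / 2 : ℝ) ^ (n - 1))) (volume.restrict (Ioi (0 : ℝ))) := by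
      rw [integrable_indicator_iff measurableSet_Icc]
      refine integrableOn_const ?_
      rw [Measure.restrict_apply measurableSet_Icc]
      exact ((measure_mono inter_subset_left).trans_lt
        (by rw [Real.volume_Icc]; exact ENNReal.ofReal_lt_top)).ne
    refine integral_mono_of_nonneg ?_ hindint ?_
    · refine (ae_restrict_iff' measurableSet_Ioi).mpr (Eventually.of_forall fun t ht => ?_)
      exact hnn u v t ht
    · refine (ae_restrict_iff' measurableSet_Ioi).mpr (Eventually.of_forall fun t ht => ?_)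
      have ht' : (0 : ℝ) < t := ht
      by_cases hbb : bump n L (t • v - u) = 0
      · show bump n L (t • v - u) * t ^ (n - 1) ≤ _
        rw [hbb, zero_mul]
        exact indicator_nonneg (fun _ _ => mul_nonneg hK (by positivity)) _
      · obtain ⟨h1, _⟩ := zb_near hL ht' hu hv hbb
        rw [abs_lt] at h1
        have hmem : t ∈ Icc a b := ⟨by rw [ha]; linarith [h1.1], by rw [hb']; linarith [h1.2]⟩
        show bump n L (t • v - u) * t ^ (n - 1) ≤ _
        rw [indicator_of_mem hmem]
        exact mul_le_mul (bump_le n hL0.le _)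
          (pow_le_pow_left₀ ht'.le (by have := hmem.2; rw [hb'] at this; linarith) _)
          (pow_nonneg ht'.le _) hK
  · intro u v hu hv
    unfold zk
    refine setIntegral_congr_fun measurableSet_Ioi fun t _ => ?_
    have : ‖t • v - u‖ = ‖t • u - v‖ := by
      have h1 : ‖t • v - u‖ ^ 2 = ‖t • u - v‖ ^ 2 := by
        rw [norm_sub_sq_real, norm_sub_sq_real, norm_smul, norm_smul, hu, hv, inner_smul_left,
          inner_smul_left, real_inner_comm u v]
      exact (pow_left_inj₀ (norm_nonneg _) (norm_nonneg _) two_ne_zero).mp h1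
    show bump n L (t • v - u) * t ^ (n - 1) = bump n L (t • u - v) * t ^ (n - 1)
    rw [bump_norm n L this]
  · intro u v hu hv hne
    by_contra hcon
    apply hne
    unfold zk
    rw [setIntegral_eq_zero_of_forall_eq_zero]
    intro t ht
    by_cases hb : bump n L (t • v - u) = 0
    · rw [hb, zero_mul]
    · exact absurd (zb_near hL ht hu hv hb).2 hcon
  · intro Q u v
    unfold zk
    refine setIntegral_congr_fun measurableSet_Ioi fun t _ => ?_
    show bump n L (t • Q v - Q u) * t ^ (n - 1) = bump n L (t • v - u) * t ^ (n - 1)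
    rw [bump_norm n L (y' := t • v - u)]
    rw [← map_smul, ← map_sub, LinearIsometryEquiv.norm_map]

end Pool.Agent.H65.BR
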