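import Pool.Agent.H93.AR.Defs

/-!
# ZN: mass of the zonal kernel
-/

set_option autoImplicit false

open MeasureTheory Set
open scoped ENNReal

namespace Pool.Agent.H65.BR

open Pool.Agent.H93.AR Pool.Agent.H83.LS Pool.Agent.H54.LS

private lemma eta_cont : Continuous eta0 := by
  unfold eta0
  exact Real.smoothTransition.continuous.comp (continuous_const.sub continuous_id)

private lemma eta_nonneg (s : ℝ) : 0 ≤ eta0 s := Real.smoothTransition.nonneg _

private lemma eta_zero {s : ℝ} (hs : 2 ≤ s) : eta0 s = 0 :=
  Real.smoothTransition.zero_of_nonpos (by linarith)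

private lemma eta_compact (n : ℕ) : HasCompactSupport (fun y : EE n => eta0 (4 * ‖y‖)) := by
  refine HasCompactSupport.intro (isCompact_closedBall (0 : EE n) 1) ?_
  intro y hy
  rw [mem_closedBall_zero_iff, not_le] at hy
  exact eta_zero (by linarith)

private lemma eta_int_cont (n : ℕ) : Continuous (fun y : EE n => eta0 (4 * ‖y‖)) :=
  eta_cont.comp (continuous_const.mul continuous_norm)

private lemma eta_int_pos (n : ℕ) : 0 < ∫ y : EE n, eta0 (4 * ‖y‖) := by
  refine (eta_int_cont n).integral_pos_of_hasCompactSupport_nonneg_nonzero (eta_compact n)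
    (fun y => eta_nonneg _) (x := 0) ?_
  rw [norm_zero, mul_zero]
  unfold eta0
  rw [Real.smoothTransition.one_of_one_le (by norm_num)]
  exact one_ne_zero

private lemma bump_int (n : ℕ) {L : ℝ} (hL : 0 < L) :
    Integrable (bump n L) ∧ ∫ y, bump n L y = 1 := by
  have h1 : ∀ y : EE n, bump n L y = bc n * L ^ n * (fun z : EE n => eta0 (4 * ‖z‖)) (L • y) := by
    intro y
    simp only [bump, norm_smul, Real.norm_eq_abs, abs_of_pos hL]
  have hi : Integrable (fun y : EE n => eta0 (4 * ‖y‖)) :=
    (eta_int_cont n).integrable_of_hasCompactSupport (eta_compact n)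
  have h2 : bump n L = fun y : EE n => bc n * L ^ n * (fun z : EE n => eta0 (4 * ‖z‖)) (L • y) :=
    funext h1
  constructor
  · rw [h2]
    exact (hi.comp_smul hL.ne').const_mul _
  · rw [h2, integral_const_mul,
      Measure.integral_comp_smul volume (fun z : EE n => eta0 (4 * ‖z‖)) L,
      finrank_euclideanSpace, Fintype.card_fin, abs_of_pos (by positivity), smul_eq_mul]
    unfold bc
    have hp := (eta_int_pos n).ne'
    have hLn : L ^ n ≠ 0 := (pow_pos hL n).ne'
    field_simp

theorem pf_zn (hZP : T_ZP) : T_ZN := by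
  intro n L u hn hL _
  have hL0 : 0 < L := by linarith
  have h := hZP n L u (fun _ => 1) hn hL0 measurable_const
  simp only [mul_one] at h
  rw [h]
  obtain ⟨hi, hI⟩ := bump_int n hL0
  rw [← ofReal_integral_eq_lintegral_ofReal hi, hI, ENNReal.ofReal_one]
  refine Filter.Eventually.of_forall fun y => ?_
  have hb : 0 ≤ bc n := inv_nonneg.mpr (eta_int_pos n).le
  exact mul_nonneg (mul_nonneg hb (pow_nonneg hL0.le n)) (eta_nonneg _)

end Pool.Agent.H65.BR
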